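import Pool.Agent.TH915.CN.Fin

/-!
# Squarefree congruent numbers in every residue class, uniformly in the modulus (helper915)

For all `q ≥ 1`, all `a` such that `g = gcd (a, 8 q)` is squarefree and all `X ≥ 1` the interval
`[X, X + C (g q ^ (8/3) X ^ (5/6) + g ^ 6 q ^ 16)]` contains a squarefree congruent number
`n ≡ a (mod 8 q)`.

Proof: `n = u (4 q² u - 1) (4 q² u + 1)` is congruent and `n ≡ -u (mod 8 q)`; an elementary sieve
which is uniform in `q` finds `u` in a residue class modulo `8 q g` such that `u`, `4 q² u - 1` and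
`4 q² u + 1` are squarefree.
-/

set_option autoImplicit false

namespace Pool.Agent.Results.MP_8efaaa_nt.LeastInProgressions

/-- There is an absolute constant `C` such that for all `q ≥ 1` and all `a` with
`g = gcd (a, 8 q)` squarefree, every interval `[X, X + C (g q ^ (8/3) X ^ (5/6) + g ^ 6 q ^ 16)]`,
`X ≥ 1`, contains a squarefree `n ≡ a (mod 8 q)` for which `x² + n y² = z²`, `x² - n y² = t²` is
solvable in positive integers. -/
theorem result : ∃ C : ℝ, 0 < C ∧ ∀ q a : ℕ, 1 ≤ q → Squarefree (Nat.gcd a (8 * q)) →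
    ∀ X : ℝ, 1 ≤ X → ∃ n : ℕ, X ≤ n ∧
      (n : ℝ) ≤ X + C * ((Nat.gcd a (8 * q) : ℝ) * (q : ℝ) ^ (8 / 3 : ℝ) * X ^ (5 / 6 : ℝ) +
        (Nat.gcd a (8 * q) : ℝ) ^ 6 * (q : ℝ) ^ 16) ∧
      Squarefree n ∧ n ≡ a [MOD 8 * q] ∧
      ∃ x y z t : ℕ, 0 < x ∧ 0 < y ∧ 0 < z ∧ 0 < t ∧
        x ^ 2 + n * y ^ 2 = z ^ 2 ∧ x ^ 2 = n * y ^ 2 + t ^ 2 :=
  Pool.Agent.TH915.CN.main

end Pool.Agent.Results.MP_8efaaa_nt.LeastInProgressions
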